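import Pool.Agent.Run7.h909.T3.Stm

/-!
# Piece NUM2 of project T3 (helper909): walks in links with trivial stabilizers have bounded values

The finiteness lemmas `fin_z`, `fin_face` are copies of helper909's lemmas for squares.
-/

set_option autoImplicit false

namespace Run7.h983.T3

open SimpleGraph Run7.h909.TD Run7.h909.T3

section

variable {H V : Type} [Group H] [MulAction H V] {T : SimpleGraph V} {F : Set (ℤ → V)}
  {f : H →* Multiplicative ℤ} {τ : V → ZMod 3}

/-- the stabilizer of the pair is trivial -/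
def Tv (H : Type) [Group H] {V : Type} [MulAction H V] (x y : V) : Prop :=
  ∀ g : H, g • x = x → g • y = y → g = 1

theorem cj_fix {g a : H} {x : V} (ha : a • g • x = g • x) : (g⁻¹ * a * g) • x = x := by
  rw [mul_smul, mul_smul, ha, inv_smul_smul]

theorem cj_one {g a : H} (h : g⁻¹ * a * g = 1) : a = 1 := by
  have h7 : g⁻¹ * a = g⁻¹ := mul_eq_one_iff_eq_inv.1 h
  exact mul_eq_left.1 h7

theorem cj_act {g z : H} {x y : V} (h : z • x = y) : (g * z * g⁻¹) • g • x = g • y := by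
  rw [mul_smul, mul_smul, inv_smul_smul, h]

theorem Tv.conj {x y : V} (h : Tv H x y) (g : H) : Tv H (g • x) (g • y) :=
  fun _ ha hb => cj_one (h _ (cj_fix ha) (cj_fix hb))

theorem fin_z {x y : V} (h : Tv H x y) {S : Set V} (hS : S.Finite) :
    {z : H | z • x = x ∧ z • y ∈ S}.Finite := by
  refine Set.Finite.of_finite_image (f := fun z : H => z • y) (hS.subset ?_) ?_
  · rintro _ ⟨z, ⟨-, h2⟩, rfl⟩
    exact h2
  · rintro z ⟨h3, -⟩ z' ⟨h3', -⟩ he
    have he' : z • y = z' • y := he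
    have : z'⁻¹ * z = 1 := by
      refine h _ ?_ ?_
      · rw [mul_smul, h3]
        exact inv_fix h3'
      · rw [mul_smul, he', inv_smul_smul]
    exact (inv_mul_eq_one.1 this).symm

/-- the triangles at an edge with trivial stabilizer -/
theorem fin_face (D : Cc H T F f τ) {x y : V} (hxy : Tv H x y) :
    {ψ | ψ ∈ F ∧ ψ 0 = x ∧ ψ 1 = y}.Finite := by
  classical
  obtain ⟨P, hP, hP'⟩ := D.ff
  choose! g hg using hP'
  refine Set.Finite.of_finite_image (f := fun ψ => (fun i => g ψ • ψ i : ℤ → V))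
    (hP.subset ?_) ?_
  · rintro _ ⟨ψ, ⟨h1, h2, h3⟩, rfl⟩
    exact hg ψ h1
  · rintro ψ ⟨h1, h2, h3⟩ ψ' ⟨h1', h2', h3'⟩ he
    have e0 : g ψ • ψ 0 = g ψ' • ψ' 0 := congrFun he 0
    have e1 : g ψ • ψ 1 = g ψ' • ψ' 1 := congrFun he 1
    rw [h2, h2'] at e0
    rw [h3, h3'] at e1
    have h4 : (g ψ')⁻¹ * g ψ = 1 := by
      refine hxy _ ?_ ?_
      · rw [mul_smul, e0, inv_smul_smul]
      · rw [mul_smul, e1, inv_smul_smul]
    have h5 : g ψ = g ψ' := by
      have := inv_mul_eq_one.1 h4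
      exact this.symm
    funext i
    have := congrFun he i
    have h6 : g ψ • ψ i = g ψ' • ψ' i := this
    rw [h5] at h6
    exact smul_left_cancel _ h6

theorem fin_Tg (D : Cc H T F f τ) {x y : V} (hxy : Tv H x y) : {z | Tg F x y z}.Finite := by
  refine ((fin_face D hxy).image fun ψ => ψ 2).subset ?_
  rintro z ⟨ψ, h1, h2, h3, h4⟩
  exact ⟨ψ, ⟨h1, h2, h3⟩, h4⟩

theorem Tg_smul (D : Cc H T F f τ) (g : H) {x y z : V} (h : Tg F x y z) :
    Tg F (g • x) (g • y) (g • z) := by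
  obtain ⟨φ, h1, h2, h3, h4⟩ := h
  refine ⟨_, D.ac.face g φ h1, ?_, ?_, ?_⟩
  · show g • φ 0 = g • x
    rw [h2]
  · show g • φ 1 = g • y
    rw [h3]
  · show g • φ 2 = g • z
    rw [h4]

/-- there is a walk of length `n` from `a` to `w` in the link of `x`, with trivial stabilizers -/
def Rr (H : Type) [Group H] {V : Type} [MulAction H V] (F : Set (ℤ → V)) (x : V) :
    ℕ → V → V → Prop
  | 0, a, w => w = a
  | n + 1, a, w => ∃ b, Tg F x a b ∧ Tv H x b ∧ Rr H F x n b w

theorem fin_Rr (D : Cc H T F f τ) (x : V) :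
    ∀ (n : ℕ) (a : V), Tv H x a → {w | Rr H F x n a w}.Finite
  | 0, a, _ => (Set.finite_singleton a).subset fun _ hw => hw
  | n + 1, a, ha => by
      have hsub : {w | Rr H F x (n + 1) a w} ⊆
          ⋃ b ∈ {b | Tg F x a b}, {w | Tv H x b ∧ Rr H F x n b w} := by
        rintro w ⟨b, h1, h2, h3⟩
        simp only [Set.mem_iUnion]
        exact ⟨b, h1, h2, h3⟩
      refine Set.Finite.subset (Set.Finite.biUnion (fin_Tg D ha) fun b _ => ?_) hsub
      by_cases hb : Tv H x b
      · exact (fin_Rr D x n b hb).subset fun w hw => hw.2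
      · exact Set.finite_empty.subset fun w hw => (hb hw.1).elim

theorem Rr_smul (D : Cc H T F f τ) (g : H) (x : V) :
    ∀ (n : ℕ) (a w : V), Rr H F x n a w → Rr H F (g • x) n (g • a) (g • w)
  | 0, _, _, h => congrArg (fun v => g • v) h
  | n + 1, _, w, ⟨b, h1, h2, h3⟩ => ⟨g • b, Tg_smul D g h1, h2.conj g, Rr_smul D g x n b w h3⟩

theorem Rr_of_chain (x : V) : ∀ (l : List V) (a w : V),
    List.IsChain (fun u v => Tg F x u v) (a :: l) → (a :: l).getLast? = some w →
      (∀ u ∈ a :: l, Tv H x u) → Rr H F x l.length a w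
  | [], a, w, _, h, _ => by
      have h' : a = w := by simpa using h
      exact h'.symm
  | b :: l, a, w, h1, h2, h3 => by
      have h4 := List.isChain_cons_cons.1 h1
      refine ⟨b, h4.1, h3 b (List.mem_cons_of_mem _ List.mem_cons_self),
        Rr_of_chain x l b w h4.2 ?_ fun u hu => h3 u (List.mem_cons_of_mem _ hu)⟩
      rwa [List.getLast?_cons_cons] at h2

end

/-- NUM2 -/
theorem t_NUM2 : S_NUM2 := by
  intro H V _ _ T F f τ D
  classical
  obtain ⟨E, hE, hE'⟩ := D.fe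
  have hfin : ∀ x a : V,
      {k : H | Tv H x a ∧ k • x = x ∧ ∃ n < 6, Rr H F x n a (k • a)}.Finite := by
    intro x a
    by_cases hxa : Tv H x a
    · have hS : (⋃ n ∈ Set.Iio 6, {w | Rr H F x n a w}).Finite :=
        Set.Finite.biUnion (Set.finite_Iio 6) fun n _ => fin_Rr D x n a hxa
      refine (fin_z hxa hS).subset ?_
      rintro k ⟨-, h1, n, h2, h3⟩
      refine ⟨h1, ?_⟩
      simp only [Set.mem_iUnion]
      exact ⟨n, h2, h3⟩
    · exact Set.finite_empty.subset fun z hz => (hxa hz.1).elim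
  have key : ∀ e : V × V, ∃ B : ℕ, ∀ z : H,
      (Tv H e.1 e.2 ∧ z • e.1 = e.1 ∧ ∃ n < 6, Rr H F e.1 n e.2 (z • e.2)) →
        (vl f z).natAbs ≤ B := by
    intro e
    obtain ⟨B, hB⟩ := ((hfin e.1 e.2).image fun z => (vl f z).natAbs).bddAbove
    exact ⟨B, fun z hz => hB ⟨z, hz, rfl⟩⟩
  choose B hB using key
  refine ⟨∑ e ∈ hE.toFinset, B e, ?_⟩
  intro k x a l hl hk hc hlast hu
  have h0 := hu a List.mem_cons_self
  obtain ⟨g, hg⟩ := hE' x a h0.1
  have hR : Rr H F x l.length a (k • a) :=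
    Rr_of_chain x l a _ hc hlast fun u hu' => (hu u hu').2
  have hle : B (g • x, g • a) ≤ ∑ e ∈ hE.toFinset, B e :=
    Finset.single_le_sum (f := B) (fun _ _ => Nat.zero_le _) (hE.mem_toFinset.2 hg)
  refine le_trans ?_ hle
  have h1 : Rr H F (g • x) l.length (g • a) ((g * k * g⁻¹) • g • a) := by
    rw [cj_act (g := g) (z := k) (x := a) rfl]
    exact Rr_smul D g x _ _ _ hR
  have h2 := hB (g • x, g • a) (g * k * g⁻¹)
    ⟨Tv.conj h0.2 g, cj_act hk, l.length, by omega, h1⟩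
  rwa [vl_conj] at h2

end Run7.h983.T3
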